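import Mathlib

set_option autoImplicit false

/-!
Parametrised surfaces in Lorentz 4-space over an open subset of the plane `ℂ = ℝ²`
with coordinates `z = u + i v`.
-/

open MeasureTheory Filter Topology

namespace Pool.Agent.H786Z.St

/-- The Lorentzian inner product `-a₀b₀ + a₁b₁ + a₂b₂ + a₃b₃`. -/
def lor (a b : Fin 4 → ℝ) : ℝ := -(a 0 * b 0) + a 1 * b 1 + a 2 * b 2 + a 3 * b 3

/-- The partial derivative in the direction `u`. -/
noncomputable def dU {E : Type} [NormedAddCommGroup E] [NormedSpace ℝ E] (φ : ℂ → E) (z : ℂ) : E :=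
  fderiv ℝ φ z 1

/-- The partial derivative in the direction `v`. -/
noncomputable def dV {E : Type} [NormedAddCommGroup E] [NormedSpace ℝ E] (φ : ℂ → E) (z : ℂ) : E :=
  fderiv ℝ φ z Complex.I

/-- The coefficient `E` of the induced metric. -/
noncomputable def cE (X : ℂ → Fin 4 → ℝ) (z : ℂ) : ℝ := lor (dU X z) (dU X z)

/-- The coefficient `F` of the induced metric. -/
noncomputable def cF (X : ℂ → Fin 4 → ℝ) (z : ℂ) : ℝ := lor (dU X z) (dV X z)

/-- The coefficient `G` of the induced metric. -/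
noncomputable def cG (X : ℂ → Fin 4 → ℝ) (z : ℂ) : ℝ := lor (dV X z) (dV X z)

/-- The induced metric is positive definite (so `X` is a spacelike immersion). -/
def Spacelike (X : ℂ → Fin 4 → ℝ) (U : Set ℂ) : Prop :=
  ∀ z ∈ U, 0 < cE X z ∧ 0 < cE X z * cG X z - cF X z ^ 2

/-- The mean curvature vector vanishes: `G X_uu - 2 F X_uv + E X_vv` is tangent to the surface. -/
def ZeroMeanCurvature (X : ℂ → Fin 4 → ℝ) (U : Set ℂ) : Prop :=
  ∀ z ∈ U, ∃ a b : ℝ,
    cG X z • dU (dU X) z - (2 * cF X z) • dV (dU X) z + cE X z • dV (dV X) z =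
      a • dU X z + b • dV X z

/-- The Gaussian curvature of the induced metric (Brioschi's formula). -/
noncomputable def gaussK (X : ℂ → Fin 4 → ℝ) (z : ℂ) : ℝ :=
  (Matrix.det !![-(1 / 2) * dV (dV (cE X)) z + dV (dU (cF X)) z - (1 / 2) * dU (dU (cG X)) z,
        (1 / 2) * dU (cE X) z, dU (cF X) z - (1 / 2) * dV (cE X) z;
      dV (cF X) z - (1 / 2) * dU (cG X) z, cE X z, cF X z;
      (1 / 2) * dV (cG X) z, cF X z, cG X z] -
    Matrix.det !![0, (1 / 2) * dV (cE X) z, (1 / 2) * dU (cG X) z;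
      (1 / 2) * dV (cE X) z, cE X z, cF X z;
      (1 / 2) * dU (cG X) z, cF X z, cG X z]) /
    (cE X z * cG X z - cF X z ^ 2) ^ 2

/-- The total absolute Gaussian curvature `∫ |K| dM`. -/
noncomputable def totalAbsCurvature (X : ℂ → Fin 4 → ℝ) (U : Set ℂ) : ENNReal :=
  ∫⁻ z in U, ENNReal.ofReal (|gaussK X z| * Real.sqrt (cE X z * cG X z - cF X z ^ 2))

/-- The induced metric is complete: every `C¹` curve `[0,1) → U` that eventually leaves every
compact subset of `U` has infinite length. -/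
def Complete (X : ℂ → Fin 4 → ℝ) (U : Set ℂ) : Prop :=
  ∀ γ : ℝ → ℂ, ContDiffOn ℝ 1 γ (Set.Ico 0 1) → (∀ t ∈ Set.Ico (0 : ℝ) 1, γ t ∈ U) →
    (∀ K : Set ℂ, IsCompact K → K ⊆ U → ∀ᶠ t in 𝓝[<] (1 : ℝ), γ t ∉ K) →
    ∫⁻ t in Set.Ioo (0 : ℝ) 1,
      ENNReal.ofReal (Real.sqrt (lor (deriv (X ∘ γ) t) (deriv (X ∘ γ) t))) = ⊤

/-- `X` is injective on `U` and proper: preimages in `U` of compact sets are compact. -/
def ProperlyEmbedded (X : ℂ → Fin 4 → ℝ) (U : Set ℂ) : Prop :=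
  Set.InjOn X U ∧ ∀ K : Set (Fin 4 → ℝ), IsCompact K → IsCompact (U ∩ X ⁻¹' K)

end Pool.Agent.H786Z.St
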