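import Mathlib
import Pool.Agent.H786Z.St.Defs

set_option autoImplicit false

open Complex Filter Topology

namespace Pool.Agent.H786Z.St

/-- `φ` is real differentiable at `z` with partial derivatives `a` and `b`. -/
def HasD (φ : ℂ → ℝ) (a b : ℝ) (z : ℂ) : Prop :=
  HasFDerivAt φ (a • reCLM + b • imCLM) z

theorem HasD.dU_eq {φ : ℂ → ℝ} {a b : ℝ} {z : ℂ} (h : HasD φ a b z) : dU φ z = a := by
  unfold dU; rw [HasFDerivAt.fderiv h]; simp

theorem HasD.dV_eq {φ : ℂ → ℝ} {a b : ℝ} {z : ℂ} (h : HasD φ a b z) : dV φ z = b := by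
  unfold dV; rw [HasFDerivAt.fderiv h]; simp

theorem HasD.congr' {φ : ℂ → ℝ} {a b a' b' : ℝ} {z : ℂ} (h : HasD φ a b z) (ha : a = a')
    (hb : b = b') : HasD φ a' b' z := by subst ha; subst hb; exact h

theorem hasD_re {h : ℂ → ℂ} {h' z : ℂ} (H : HasDerivAt h h' z) :
    HasD (fun w => (h w).re) h'.re (-h'.im) z := by
  have h1 := reCLM.hasFDerivAt.comp z (H.hasFDerivAt.restrictScalars ℝ)
  refine h1.congr_fderiv ?_
  ext w
  simp
  try ring

theorem hasD_im {h : ℂ → ℂ} {h' z : ℂ} (H : HasDerivAt h h' z) :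
    HasD (fun w => (h w).im) h'.im h'.re z := by
  have h1 := imCLM.hasFDerivAt.comp z (H.hasFDerivAt.restrictScalars ℝ)
  refine h1.congr_fderiv ?_
  ext w
  simp
  try ring

theorem hasD_const (c : ℝ) (z : ℂ) : HasD (fun _ => c) 0 0 z := by
  unfold HasD
  refine (hasFDerivAt_const c z).congr_fderiv ?_
  simp

theorem HasD.add {φ ψ : ℂ → ℝ} {a b c d : ℝ} {z : ℂ} (h : HasD φ a b z) (h' : HasD ψ c d z) :
    HasD (fun w => φ w + ψ w) (a + c) (b + d) z := by
  refine (HasFDerivAt.add h h').congr_fderiv ?_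
  ext w
  simp
  try ring

theorem HasD.neg {φ : ℂ → ℝ} {a b : ℝ} {z : ℂ} (h : HasD φ a b z) :
    HasD (fun w => -φ w) (-a) (-b) z := by
  refine (HasFDerivAt.neg h).congr_fderiv ?_
  ext w
  simp
  try ring

theorem HasD.sub {φ ψ : ℂ → ℝ} {a b c d : ℝ} {z : ℂ} (h : HasD φ a b z) (h' : HasD ψ c d z) :
    HasD (fun w => φ w - ψ w) (a - c) (b - d) z := by
  refine (HasFDerivAt.sub h h').congr_fderiv ?_
  ext w
  simp
  try ring

theorem HasD.mul {φ ψ : ℂ → ℝ} {a b c d : ℝ} {z : ℂ} (h : HasD φ a b z) (h' : HasD ψ c d z) :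
    HasD (fun w => φ w * ψ w) (φ z * c + ψ z * a) (φ z * d + ψ z * b) z := by
  refine (HasFDerivAt.mul h h').congr_fderiv ?_
  ext w
  simp
  try ring

theorem dU_congr {E : Type} [NormedAddCommGroup E] [NormedSpace ℝ E] {φ ψ : ℂ → E} {z : ℂ}
    (h : φ =ᶠ[𝓝 z] ψ) : dU φ z = dU ψ z := by
  unfold dU; rw [h.fderiv_eq]

theorem dV_congr {E : Type} [NormedAddCommGroup E] [NormedSpace ℝ E] {φ ψ : ℂ → E} {z : ℂ}
    (h : φ =ᶠ[𝓝 z] ψ) : dV φ z = dV ψ z := by
  unfold dV; rw [h.fderiv_eq]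

theorem hasFDerivAt_vec {X : ℂ → Fin 4 → ℝ} {a b : Fin 4 → ℝ} {z : ℂ}
    (h : ∀ i, HasD (fun w => X w i) (a i) (b i) z) :
    HasFDerivAt X (reCLM.smulRight a + imCLM.smulRight b) z := by
  rw [hasFDerivAt_pi']
  intro i
  refine (h i).congr_fderiv ?_
  ext w
  simp
  try ring

theorem dU_vec {X : ℂ → Fin 4 → ℝ} {a b : Fin 4 → ℝ} {z : ℂ}
    (h : ∀ i, HasD (fun w => X w i) (a i) (b i) z) : dU X z = a := by
  unfold dU; rw [(hasFDerivAt_vec h).fderiv]; simp

theorem dV_vec {X : ℂ → Fin 4 → ℝ} {a b : Fin 4 → ℝ} {z : ℂ}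
    (h : ∀ i, HasD (fun w => X w i) (a i) (b i) z) : dV X z = b := by
  unfold dV; rw [(hasFDerivAt_vec h).fderiv]; simp

/-! ### The data -/

noncomputable def g (z : ℂ) : ℂ := exp z * (z - 1) ^ 2 / (z + 1) ^ 2
noncomputable def f (z : ℂ) : ℂ := exp (-z) * (z + 1) ^ 2 / (z - 1) ^ 2
noncomputable def P (z : ℂ) : ℂ := exp z * (z - 3) / (z + 1)
noncomputable def Q (z : ℂ) : ℂ := exp (-z) * (z + 3) / (1 - z)
noncomputable def k (z : ℂ) : ℂ := 1 + 4 / ((z - 1) * (z + 1))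
noncomputable def k' (z : ℂ) : ℂ := -8 * z / ((z - 1) * (z + 1)) ^ 2

def U : Set ℂ := ({1, -1} : Set ℂ)ᶜ

theorem isOpen_U : IsOpen U := (Set.toFinite _).isClosed.isOpen_compl

theorem mem_U {z : ℂ} : z ∈ U ↔ z - 1 ≠ 0 ∧ z + 1 ≠ 0 := by
  simp only [U, Set.mem_compl_iff, Set.mem_insert_iff, Set.mem_singleton_iff, not_or,
    sub_ne_zero, ne_eq, add_eq_zero_iff_eq_neg]

theorem g_mul_f {z : ℂ} (hz : z ∈ U) : g z * f z = 1 := by
  obtain ⟨h1, h2⟩ := mem_U.1 hz
  unfold g f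
  have : exp z * exp (-z) = 1 := by rw [← Complex.exp_add]; simp
  field_simp
  exact this

theorem hasDerivAt_expneg (z : ℂ) : HasDerivAt (fun w : ℂ => exp (-w)) (-exp (-z)) z := by
  have := (hasDerivAt_neg z).cexp
  simpa using this

theorem dP {z : ℂ} (hz : z ∈ U) : HasDerivAt P (g z) z := by
  obtain ⟨h1, h2⟩ := mem_U.1 hz
  have := ((Complex.hasDerivAt_exp z).mul ((hasDerivAt_id z).sub_const 3)).div
    ((hasDerivAt_id z).add_const 1) h2
  refine this.congr_deriv ?_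
  unfold g
  simp only [id, Pi.mul_apply]
  field_simp
  ring

theorem dQ {z : ℂ} (hz : z ∈ U) : HasDerivAt Q (f z) z := by
  obtain ⟨h1, h2⟩ := mem_U.1 hz
  have h3 : 1 - z ≠ 0 := by intro h; apply h1; linear_combination -h
  have := ((hasDerivAt_expneg z).mul ((hasDerivAt_id z).add_const 3)).div
    ((hasDerivAt_id z).const_sub 1) h3
  refine this.congr_deriv ?_
  unfold f
  simp only [id, Pi.mul_apply]
  field_simp
  ring

theorem dg {z : ℂ} (hz : z ∈ U) : HasDerivAt g (g z * k z) z := by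
  obtain ⟨h1, h2⟩ := mem_U.1 hz
  have := ((Complex.hasDerivAt_exp z).mul (((hasDerivAt_id z).sub_const 1).pow 2)).div
    (((hasDerivAt_id z).add_const 1).pow 2) (pow_ne_zero 2 h2)
  refine this.congr_deriv ?_
  unfold g k
  simp only [id, Pi.mul_apply, Pi.pow_apply]
  field_simp
  ring

theorem df {z : ℂ} (hz : z ∈ U) : HasDerivAt f (-(f z * k z)) z := by
  obtain ⟨h1, h2⟩ := mem_U.1 hz
  have := ((hasDerivAt_expneg z).mul (((hasDerivAt_id z).add_const 1).pow 2)).div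
    (((hasDerivAt_id z).sub_const 1).pow 2) (pow_ne_zero 2 h1)
  refine this.congr_deriv ?_
  unfold f k
  simp only [id, Pi.mul_apply, Pi.pow_apply]
  field_simp
  ring

theorem dk {z : ℂ} (hz : z ∈ U) : HasDerivAt k (k' z) z := by
  obtain ⟨h1, h2⟩ := mem_U.1 hz
  have := ((hasDerivAt_const z (4 : ℂ)).div
    (((hasDerivAt_id z).sub_const 1).mul ((hasDerivAt_id z).add_const 1))
    (mul_ne_zero h1 h2)).const_add 1
  refine this.congr_deriv ?_
  unfold k'
  simp only [id, Pi.mul_apply]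
  field_simp
  ring

noncomputable def X (z : ℂ) : Fin 4 → ℝ :=
  ![z.re - z.im, (P z).re - (Q z).im, (P z).im - (Q z).re, z.re + z.im]

noncomputable def XU (z : ℂ) : Fin 4 → ℝ :=
  ![1, (g z).re - (f z).im, (g z).im - (f z).re, 1]

noncomputable def XV (z : ℂ) : Fin 4 → ℝ :=
  ![-1, -(g z).im - (f z).re, (g z).re + (f z).im, 1]

theorem hasD_X {z : ℂ} (hz : z ∈ U) (i : Fin 4) : HasD (fun w => X w i) (XU z i) (XV z i) z := by
  have a1 := hasD_re (hasDerivAt_id z)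
  have a2 := hasD_im (hasDerivAt_id z)
  fin_cases i
  · exact (a1.sub a2).congr' (by simp [XU]) (by simp [XV])
  · exact ((hasD_re (dP hz)).sub (hasD_im (dQ hz))).congr' (by simp [XU]) (by simp [XV])
  · exact ((hasD_im (dP hz)).sub (hasD_re (dQ hz))).congr' (by simp [XU]) (by simp [XV])
  · exact (a1.add a2).congr' (by simp [XU]) (by simp [XV])

theorem dU_X {z : ℂ} (hz : z ∈ U) : dU X z = XU z := dU_vec (hasD_X hz)
theorem dV_X {z : ℂ} (hz : z ∈ U) : dV X z = XV z := dV_vec (hasD_X hz)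

theorem ev_U {z : ℂ} (hz : z ∈ U) {E : Type} {φ ψ : ℂ → E} (h : ∀ w ∈ U, φ w = ψ w) :
    φ =ᶠ[𝓝 z] ψ := by
  filter_upwards [isOpen_U.mem_nhds hz] with w hw using h w hw

theorem harm {z : ℂ} (hz : z ∈ U) : dU (dU X) z + dV (dV X) z = 0 := by
  rw [dU_congr (ev_U hz fun w hw => dU_X hw), dV_congr (ev_U hz fun w hw => dV_X hw)]
  have h1 : ∀ i, HasD (fun w => XU w i)
      ((![0, (g z * k z).re - (-(f z * k z)).im, (g z * k z).im - (-(f z * k z)).re, 0] :
        Fin 4 → ℝ) i)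
      ((![0, -(g z * k z).im - (-(f z * k z)).re, (g z * k z).re - -(-(f z * k z)).im, 0] :
        Fin 4 → ℝ) i) z := by
    intro i
    fin_cases i
    · exact hasD_const 1 z
    · exact (hasD_re (dg hz)).sub (hasD_im (df hz))
    · exact (hasD_im (dg hz)).sub (hasD_re (df hz))
    · exact hasD_const 1 z
  have h2 : ∀ i, HasD (fun w => XV w i)
      ((![0, -(g z * k z).im - (-(f z * k z)).re, (g z * k z).re + (-(f z * k z)).im, 0] :
        Fin 4 → ℝ) i)
      ((![0, -(g z * k z).re - -(-(f z * k z)).im, -(g z * k z).im + (-(f z * k z)).re, 0] :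
        Fin 4 → ℝ) i) z := by
    intro i
    fin_cases i
    · exact hasD_const (-1) z
    · exact (hasD_im (dg hz)).neg.sub (hasD_re (df hz))
    · exact (hasD_re (dg hz)).add (hasD_im (df hz))
    · exact hasD_const 1 z
  rw [dU_vec h1, dV_vec h2]
  funext i
  fin_cases i <;> simp <;> ring

noncomputable def A (z : ℂ) : ℝ := (g z).re * (g z).re + (g z).im * (g z).im
noncomputable def B (z : ℂ) : ℝ := (f z).re * (f z).re + (f z).im * (f z).im
noncomputable def lam (z : ℂ) : ℝ := A z + B z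

theorem gf_re {z : ℂ} (hz : z ∈ U) : (g z).re * (f z).re - (g z).im * (f z).im = 1 := by
  have := congrArg Complex.re (g_mul_f hz)
  simpa using this

theorem gf_im {z : ℂ} (hz : z ∈ U) : (g z).re * (f z).im + (g z).im * (f z).re = 0 := by
  have := congrArg Complex.im (g_mul_f hz)
  simpa using this

theorem A_mul_B {z : ℂ} (hz : z ∈ U) : A z * B z = 1 := by
  have h1 := gf_re hz
  have h2 := gf_im hz
  unfold A B
  nlinarith

theorem A_nonneg (z : ℂ) : 0 ≤ A z := by unfold A; nlinarith [mul_self_nonneg (g z).re, mul_self_nonneg (g z).im]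
theorem B_nonneg (z : ℂ) : 0 ≤ B z := by unfold B; nlinarith [mul_self_nonneg (f z).re, mul_self_nonneg (f z).im]

theorem two_le_lam {z : ℂ} (hz : z ∈ U) : 2 ≤ lam z := by
  have h1 := A_mul_B hz
  have h2 := A_nonneg z
  have h3 := B_nonneg z
  unfold lam
  nlinarith [sq_nonneg (A z - B z), sq_nonneg (A z + B z - 2), sq_nonneg (A z - 1)]

theorem cE_X {z : ℂ} (hz : z ∈ U) : cE X z = lam z := by
  have h2 := gf_im hz
  unfold cE lor lam A B
  rw [dU_X hz]
  simp [XU]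
  linarith

theorem cG_X {z : ℂ} (hz : z ∈ U) : cG X z = lam z := by
  have h2 := gf_im hz
  unfold cG lor lam A B
  rw [dV_X hz]
  simp [XV]
  linarith

theorem cF_X {z : ℂ} (hz : z ∈ U) : cF X z = 0 := by
  have h1 := gf_re hz
  unfold cF lor
  rw [dU_X hz, dV_X hz]
  simp [XU, XV]
  linarith

theorem hasD_A {z : ℂ} (hz : z ∈ U) : HasD A (2 * A z * (k z).re) (-(2 * A z * (k z).im)) z := by
  have := ((hasD_re (dg hz)).mul (hasD_re (dg hz))).add ((hasD_im (dg hz)).mul (hasD_im (dg hz)))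
  refine this.congr' ?_ ?_ <;> simp only [A, Complex.mul_re, Complex.mul_im] <;> ring

theorem hasD_B {z : ℂ} (hz : z ∈ U) : HasD B (-(2 * B z * (k z).re)) (2 * B z * (k z).im) z := by
  have := ((hasD_re (df hz)).mul (hasD_re (df hz))).add ((hasD_im (df hz)).mul (hasD_im (df hz)))
  refine this.congr' ?_ ?_ <;>
    simp only [B, Complex.mul_re, Complex.mul_im, Complex.neg_re, Complex.neg_im] <;> ring

noncomputable def lamU (z : ℂ) : ℝ := 2 * ((A z - B z) * (k z).re)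
noncomputable def lamV (z : ℂ) : ℝ := -2 * ((A z - B z) * (k z).im)

theorem hasD_lam {z : ℂ} (hz : z ∈ U) : HasD lam (lamU z) (lamV z) z := by
  refine ((hasD_A hz).add (hasD_B hz)).congr' ?_ ?_
  · unfold lamU; ring
  · unfold lamV; ring

theorem lap_lam {z : ℂ} (hz : z ∈ U) :
    dU lamU z + dV lamV z = 4 * lam z * ((k z).re ^ 2 + (k z).im ^ 2) := by
  have h1 := (hasD_const 2 z).mul (((hasD_A hz).sub (hasD_B hz)).mul (hasD_re (dk hz)))
  have h2 := (hasD_const (-2) z).mul (((hasD_A hz).sub (hasD_B hz)).mul (hasD_im (dk hz)))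
  have e1 : dU lamU z = _ := h1.dU_eq
  have e2 : dV lamV z = _ := h2.dV_eq
  rw [e1, e2]
  unfold lam
  ring

theorem gaussK_X {z : ℂ} (hz : z ∈ U) :
    gaussK X z = -8 * ((k z).re ^ 2 + (k z).im ^ 2) / lam z ^ 3 := by
  have eEU : ∀ w ∈ U, dU (cE X) w = lamU w := fun w hw => by
    rw [dU_congr (ev_U hw fun w hw => cE_X hw), (hasD_lam hw).dU_eq]
  have eEV : ∀ w ∈ U, dV (cE X) w = lamV w := fun w hw => by
    rw [dV_congr (ev_U hw fun w hw => cE_X hw), (hasD_lam hw).dV_eq]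
  have eGU : ∀ w ∈ U, dU (cG X) w = lamU w := fun w hw => by
    rw [dU_congr (ev_U hw fun w hw => cG_X hw), (hasD_lam hw).dU_eq]
  have eGV : ∀ w ∈ U, dV (cG X) w = lamV w := fun w hw => by
    rw [dV_congr (ev_U hw fun w hw => cG_X hw), (hasD_lam hw).dV_eq]
  have eFU : ∀ w ∈ U, dU (cF X) w = 0 := fun w hw => by
    rw [dU_congr (ev_U hw fun w hw => cF_X hw), (hasD_const 0 w).dU_eq]
  have eFV : ∀ w ∈ U, dV (cF X) w = 0 := fun w hw => by
    rw [dV_congr (ev_U hw fun w hw => cF_X hw), (hasD_const 0 w).dV_eq]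
  have e1 : dV (dV (cE X)) z = dV lamV z := dV_congr (ev_U hz eEV)
  have e2 : dU (dU (cG X)) z = dU lamU z := dU_congr (ev_U hz eGU)
  have e3 : dV (dU (cF X)) z = 0 := by
    rw [dV_congr (ev_U hz eFU), (hasD_const 0 z).dV_eq]
  have hl := lap_lam hz
  have hAB := A_mul_B hz
  have hpos : 0 < lam z := by linarith [two_le_lam hz]
  have e4 : dV lamV z = 4 * lam z * ((k z).re ^ 2 + (k z).im ^ 2) - dU lamU z := by linarith
  unfold gaussK
  rw [e1, e2, e3, e4, eEU z hz, eEV z hz, eGU z hz, eGV z hz, eFU z hz, eFV z hz, cE_X hz,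
    cF_X hz, cG_X hz, Matrix.det_fin_three, Matrix.det_fin_three]
  simp only [Matrix.of_apply, Matrix.cons_val', Matrix.cons_val_zero, Matrix.cons_val_one,
    Matrix.cons_val_fin_one, Matrix.cons_val]
  have e5 : lamU z ^ 2 + lamV z ^ 2 = 4 * (lam z ^ 2 - 4) * ((k z).re ^ 2 + (k z).im ^ 2) := by
    unfold lamU lamV lam
    linear_combination (-16 * ((k z).re ^ 2 + (k z).im ^ 2)) * hAB
  field_simp
  linear_combination (2 * lam z ^ 4) * e5

end Pool.Agent.H786Z.St
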