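import Mathlib
import Pool.Agent.H786Z.St.Calc

set_option autoImplicit false

open Complex Filter Topology MeasureTheory
open scoped ContDiff

namespace Pool.Agent.H786Z.St

theorem smooth_X : ContDiffOn ℝ ∞ X U := by
  have hP : ContDiffOn ℝ ∞ P U := by
    have : DifferentiableOn ℂ P U := fun z hz => (dP hz).differentiableAt.differentiableWithinAt
    exact ((this.contDiffOn isOpen_U (n := ∞)).restrict_scalars ℝ)
  have hQ : ContDiffOn ℝ ∞ Q U := by
    have : DifferentiableOn ℂ Q U := fun z hz => (dQ hz).differentiableAt.differentiableWithinAt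
    exact ((this.contDiffOn isOpen_U (n := ∞)).restrict_scalars ℝ)
  have hre : ContDiff ℝ ∞ (fun z : ℂ => z.re) := reCLM.contDiff
  have him : ContDiff ℝ ∞ (fun z : ℂ => z.im) := imCLM.contDiff
  rw [contDiffOn_pi]
  intro i
  fin_cases i
  · exact (hre.sub him).contDiffOn
  · exact (hre.comp_contDiffOn hP).sub (him.comp_contDiffOn hQ)
  · exact (him.comp_contDiffOn hP).sub (hre.comp_contDiffOn hQ)
  · exact (hre.add him).contDiffOn

theorem spacelike_X : Spacelike X U := by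
  intro z hz
  have := two_le_lam hz
  rw [cE_X hz, cG_X hz, cF_X hz]
  constructor <;> nlinarith

theorem zeroH_X : ZeroMeanCurvature X U := by
  intro z hz
  refine ⟨0, 0, ?_⟩
  rw [cE_X hz, cG_X hz, cF_X hz]
  have := harm hz
  simp only [mul_zero, zero_smul, sub_zero, add_zero]
  rw [← smul_add, this, smul_zero]

theorem A_eq (z : ℂ) : A z = ‖g z‖ ^ 2 := by
  rw [Complex.sq_norm, Complex.normSq_apply]; rfl

theorem B_eq (z : ℂ) : B z = ‖f z‖ ^ 2 := by
  rw [Complex.sq_norm, Complex.normSq_apply]; rfl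

theorem norm_g (z : ℂ) : ‖g z‖ = Real.exp z.re * ‖z - 1‖ ^ 2 / ‖z + 1‖ ^ 2 := by
  unfold g
  rw [norm_div, norm_mul, norm_pow, norm_pow, Complex.norm_exp]

theorem norm_f (z : ℂ) : ‖f z‖ = Real.exp (-z.re) * ‖z + 1‖ ^ 2 / ‖z - 1‖ ^ 2 := by
  unfold f
  rw [norm_div, norm_mul, norm_pow, norm_pow, Complex.norm_exp, Complex.neg_re]

theorem g_le_sqrt (z : ℂ) : ‖g z‖ ≤ Real.sqrt (lam z) := by
  apply Real.le_sqrt_of_sq_le
  unfold lam
  rw [A_eq]
  linarith [B_nonneg z]

theorem f_le_sqrt (z : ℂ) : ‖f z‖ ≤ Real.sqrt (lam z) := by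
  apply Real.le_sqrt_of_sq_le
  unfold lam
  rw [B_eq]
  linarith [A_nonneg z]

theorem one_le_sqrt {z : ℂ} (hz : z ∈ U) : 1 ≤ Real.sqrt (lam z) := by
  apply Real.le_sqrt_of_sq_le
  linarith [two_le_lam hz]

theorem two_le_add (z : ℂ) : 2 ≤ ‖z - 1‖ + ‖z + 1‖ := by
  have h := norm_sub_le (z + 1) (z - 1)
  have e : z + 1 - (z - 1) = 2 := by ring
  rw [e] at h
  simp only [Complex.norm_ofNat] at h
  linarith

theorem low_plus {z : ℂ} (hz : z ∈ U) : 1 / ‖z + 1‖ ^ 2 ≤ Real.exp 2 * Real.sqrt (lam z) := by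
  obtain ⟨h1, h2⟩ := mem_U.1 hz
  have hp : 0 < ‖z + 1‖ := norm_pos_iff.2 h2
  have he : 1 ≤ Real.exp 2 := Real.one_le_exp (by norm_num)
  rcases le_total ‖z + 1‖ 1 with h | h
  · have h3 : 1 ≤ ‖z - 1‖ := by linarith [two_le_add z]
    have h4 : -2 ≤ z.re := by
      have := Complex.abs_re_le_norm (z + 1)
      simp only [Complex.add_re, Complex.one_re] at this
      have := abs_le.1 (this.trans h)
      linarith [this.1]
    have h5 : 1 ≤ Real.exp 2 * Real.exp z.re := by
      rw [← Real.exp_add]; exact Real.one_le_exp (by linarith)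
    have h6 : 1 ≤ ‖z - 1‖ ^ 2 := one_le_pow₀ h3
    calc 1 / ‖z + 1‖ ^ 2 ≤ (Real.exp 2 * Real.exp z.re * ‖z - 1‖ ^ 2) / ‖z + 1‖ ^ 2 := by
          gcongr; nlinarith
      _ = Real.exp 2 * ‖g z‖ := by rw [norm_g]; ring
      _ ≤ _ := by gcongr; exact g_le_sqrt z
  · have h6 : 1 ≤ ‖z + 1‖ ^ 2 := one_le_pow₀ h
    have h7 : 1 / ‖z + 1‖ ^ 2 ≤ 1 := by rw [div_le_one (by positivity)]; exact h6
    nlinarith [one_le_sqrt hz]

theorem low_minus {z : ℂ} (hz : z ∈ U) : 1 / ‖z - 1‖ ^ 2 ≤ Real.exp 2 * Real.sqrt (lam z) := by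
  obtain ⟨h1, h2⟩ := mem_U.1 hz
  have hp : 0 < ‖z - 1‖ := norm_pos_iff.2 h1
  have he : 1 ≤ Real.exp 2 := Real.one_le_exp (by norm_num)
  rcases le_total ‖z - 1‖ 1 with h | h
  · have h3 : 1 ≤ ‖z + 1‖ := by linarith [two_le_add z]
    have h4 : z.re ≤ 2 := by
      have := Complex.abs_re_le_norm (z - 1)
      simp only [Complex.sub_re, Complex.one_re] at this
      have := abs_le.1 (this.trans h)
      linarith [this.2]
    have h5 : 1 ≤ Real.exp 2 * Real.exp (-z.re) := by
      rw [← Real.exp_add]; exact Real.one_le_exp (by linarith)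
    have h6 : 1 ≤ ‖z + 1‖ ^ 2 := one_le_pow₀ h3
    calc 1 / ‖z - 1‖ ^ 2 ≤ (Real.exp 2 * Real.exp (-z.re) * ‖z + 1‖ ^ 2) / ‖z - 1‖ ^ 2 := by
          gcongr; nlinarith
      _ = Real.exp 2 * ‖f z‖ := by rw [norm_f]; ring
      _ ≤ _ := by gcongr; exact f_le_sqrt z
  · have h6 : 1 ≤ ‖z - 1‖ ^ 2 := one_le_pow₀ h
    have h7 : 1 / ‖z - 1‖ ^ 2 ≤ 1 := by rw [div_le_one (by positivity)]; exact h6
    nlinarith [one_le_sqrt hz]

/-- the compact exhaustion of `U` -/
def Cpt (M : ℝ) : Set ℂ := {z | ‖z‖ ≤ M ∧ 1 ≤ M * ‖z - 1‖ ∧ 1 ≤ M * ‖z + 1‖}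

theorem Cpt_compact (M : ℝ) : IsCompact (Cpt M) := by
  apply Metric.isCompact_of_isClosed_isBounded
  · have a1 : IsClosed {z : ℂ | ‖z‖ ≤ M} := isClosed_le continuous_norm continuous_const
    have a2 : IsClosed {z : ℂ | 1 ≤ M * ‖z - 1‖} := isClosed_le continuous_const (by fun_prop)
    have a3 : IsClosed {z : ℂ | 1 ≤ M * ‖z + 1‖} := isClosed_le continuous_const (by fun_prop)
    exact a1.inter (a2.inter a3)
  · exact (Metric.isBounded_closedBall (x := (0 : ℂ)) (r := M)).subset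
      fun z hz => by simpa using hz.1

theorem Cpt_sub (M : ℝ) : Cpt M ⊆ U := by
  intro z hz
  rw [mem_U]
  constructor
  · intro h; have := hz.2.1; rw [h] at this; norm_num at this
  · intro h; have := hz.2.2; rw [h] at this; norm_num at this

theorem path_bound (h : ℝ → ℂ) (hh : ContDiffOn ℝ 1 h (Set.Ico 0 1)) (m : ℝ → ℝ) (C : ℝ)
    (hC : 0 ≤ C) (hd : ∀ t ∈ Set.Ioo (0 : ℝ) 1, ‖deriv h t‖ ≤ C * m t)
    (hfin : ∫⁻ t in Set.Ioo (0 : ℝ) 1, ENNReal.ofReal (m t) ≠ ⊤) :
    ∃ M : ℝ, ∀ t ∈ Set.Ico (0 : ℝ) 1, ‖h t‖ ≤ M := by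
  refine ⟨‖h 0‖ + C * (∫⁻ t in Set.Ioo (0 : ℝ) 1, ENNReal.ofReal (m t)).toReal, ?_⟩
  intro t ht
  have h1 := enorm_sub_le_lintegral_deriv_of_contDiffOn_Icc
    (hh.mono (Set.Icc_subset_Ico_right ht.2)) ht.1
  have h2 : ∫⁻ x in Set.Icc 0 t, ‖deriv h x‖ₑ ≤
      ENNReal.ofReal C * ∫⁻ t in Set.Ioo (0 : ℝ) 1, ENNReal.ofReal (m t) := by
    rw [← MeasureTheory.restrict_Ioo_eq_restrict_Icc, ← lintegral_const_mul' _ _ ENNReal.ofReal_ne_top]
    refine le_trans (lintegral_mono_set (Set.Ioo_subset_Ioo_right ht.2.le)) ?_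
    refine setLIntegral_mono' measurableSet_Ioo ?_
    intro s hs
    rw [← ENNReal.ofReal_mul hC, ← ofReal_norm_eq_enorm]
    exact ENNReal.ofReal_le_ofReal (hd s hs)
  have h3 := h1.trans h2
  have h4 : ‖h t - h 0‖ ≤ C * (∫⁻ t in Set.Ioo (0 : ℝ) 1, ENNReal.ofReal (m t)).toReal := by
    have h5 := ENNReal.toReal_mono (ENNReal.mul_ne_top ENNReal.ofReal_ne_top hfin) h3
    rw [ENNReal.toReal_mul, ENNReal.toReal_ofReal hC, toReal_enorm] at h5
    exact h5
  calc ‖h t‖ = ‖h 0 + (h t - h 0)‖ := by congr 1; ring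
    _ ≤ ‖h 0‖ + ‖h t - h 0‖ := norm_add_le _ _
    _ ≤ _ := by linarith

theorem complete_X : Complete X U := by
  intro γ hγ hU hdiv
  by_contra hfin
  have hder : ∀ t ∈ Set.Ioo (0 : ℝ) 1, HasDerivAt γ (deriv γ t) t := by
    intro t ht
    have h1 : Set.Ico (0 : ℝ) 1 ∈ 𝓝 t := Ico_mem_nhds ht.1 ht.2
    exact ((hγ.contDiffAt h1).differentiableAt (by norm_num)).hasDerivAt
  have hm : ∀ t ∈ Set.Ioo (0 : ℝ) 1,
      Real.sqrt (lor (deriv (X ∘ γ) t) (deriv (X ∘ γ) t)) =
        Real.sqrt (lam (γ t)) * ‖deriv γ t‖ := by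
    intro t ht
    have hz : γ t ∈ U := hU t ⟨ht.1.le, ht.2⟩
    have h1 := (hasFDerivAt_vec (hasD_X hz)).comp_hasDerivAt t (hder t ht)
    rw [h1.deriv]
    have eE := cE_X hz
    have eF := cF_X hz
    have eG := cG_X hz
    unfold cE at eE
    unfold cF at eF
    unfold cG at eG
    rw [dU_X hz] at eE eF
    rw [dV_X hz] at eF eG
    have h2 : lor ((reCLM.smulRight (XU (γ t)) + imCLM.smulRight (XV (γ t))) (deriv γ t))
        ((reCLM.smulRight (XU (γ t)) + imCLM.smulRight (XV (γ t))) (deriv γ t)) =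
        lam (γ t) * ‖deriv γ t‖ ^ 2 := by
      rw [Complex.sq_norm, Complex.normSq_apply]
      unfold lor at eE eF eG ⊢
      simp only [ContinuousLinearMap.add_apply, ContinuousLinearMap.smulRight_apply, reCLM_apply,
        imCLM_apply, Pi.add_apply, Pi.smul_apply, smul_eq_mul]
      linear_combination (deriv γ t).re ^ 2 * eE + 2 * (deriv γ t).re * (deriv γ t).im * eF +
        (deriv γ t).im ^ 2 * eG
    rw [h2, Real.sqrt_mul (by linarith [two_le_lam hz]), Real.sqrt_sq (norm_nonneg _)]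
  obtain ⟨M1, hM1⟩ := path_bound γ hγ _ 1 zero_le_one (by
    intro t ht
    rw [hm t ht, one_mul]
    have := one_le_sqrt (hU t ⟨ht.1.le, ht.2⟩)
    nlinarith [norm_nonneg (deriv γ t)]) hfin
  obtain ⟨M2, hM2⟩ := path_bound (fun t => (γ t - 1)⁻¹)
    ((hγ.sub contDiffOn_const).inv fun t ht => (mem_U.1 (hU t ht)).1) _ (Real.exp 2)
    (Real.exp_pos 2).le (by
    intro t ht
    have hz := hU t ⟨ht.1.le, ht.2⟩
    have h1 := ((hder t ht).sub_const 1).inv (mem_U.1 hz).1
    have h2 : deriv (fun t => (γ t - 1)⁻¹) t = -deriv γ t / (γ t - 1) ^ 2 := h1.deriv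
    rw [hm t ht, h2, norm_div, norm_neg, norm_pow, ← mul_assoc, div_eq_mul_one_div, mul_comm]
    gcongr
    exact low_minus hz) hfin
  obtain ⟨M3, hM3⟩ := path_bound (fun t => (γ t + 1)⁻¹)
    ((hγ.add contDiffOn_const).inv fun t ht => (mem_U.1 (hU t ht)).2) _ (Real.exp 2)
    (Real.exp_pos 2).le (by
    intro t ht
    have hz := hU t ⟨ht.1.le, ht.2⟩
    have h1 := ((hder t ht).add_const 1).inv (mem_U.1 hz).2
    have h2 : deriv (fun t => (γ t + 1)⁻¹) t = -deriv γ t / (γ t + 1) ^ 2 := h1.deriv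
    rw [hm t ht, h2, norm_div, norm_neg, norm_pow, ← mul_assoc, div_eq_mul_one_div, mul_comm]
    gcongr
    exact low_plus hz) hfin
  have hin : ∀ t ∈ Set.Ico (0 : ℝ) 1, γ t ∈ Cpt (max M1 (max M2 M3)) := by
    intro t ht
    obtain ⟨h1, h2⟩ := mem_U.1 (hU t ht)
    have p1 : 0 < ‖γ t - 1‖ := norm_pos_iff.2 h1
    have p2 : 0 < ‖γ t + 1‖ := norm_pos_iff.2 h2
    refine ⟨(hM1 t ht).trans (le_max_left _ _), ?_, ?_⟩
    · have := hM2 t ht
      rw [norm_inv, inv_le_iff_one_le_mul₀ p1] at this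
      refine this.trans ?_
      gcongr
      exact (le_max_left _ _).trans (le_max_right _ _)
    · have := hM3 t ht
      rw [norm_inv, inv_le_iff_one_le_mul₀ p2] at this
      refine this.trans ?_
      gcongr
      exact (le_max_right _ _).trans (le_max_right _ _)
  have hev := hdiv _ (Cpt_compact (max M1 (max M2 M3))) (Cpt_sub _)
  have hev2 : ∀ᶠ t in 𝓝[<] (1 : ℝ), t ∈ Set.Ico (0 : ℝ) 1 := Ico_mem_nhdsLT (by norm_num)
  obtain ⟨t, ht1, ht2⟩ := (hev.and hev2).exists
  exact ht1 (hin t ht2)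

theorem norm_P (z : ℂ) : ‖P z‖ = Real.exp z.re * ‖z - 3‖ / ‖z + 1‖ := by
  unfold P
  rw [norm_div, norm_mul, Complex.norm_exp]

theorem norm_Q (z : ℂ) : ‖Q z‖ = Real.exp (-z.re) * ‖z + 3‖ / ‖z - 1‖ := by
  unfold Q
  rw [norm_div, norm_mul, Complex.norm_exp, Complex.neg_re, norm_sub_rev 1 z]

theorem proper_X : ProperlyEmbedded X U := by
  constructor
  · intro z _ w _ h
    have h0 := congrFun h 0
    have h3 := congrFun h 3
    simp only [X, Matrix.cons_val_zero, Matrix.cons_val] at h0 h3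
    apply Complex.ext <;> linarith
  · intro K hK
    obtain ⟨R, hR⟩ := hK.isBounded.exists_norm_le
    set E := Real.exp 2 with hE
    have hE1 : 1 ≤ E := Real.one_le_exp (by norm_num)
    set M : ℝ := 2 * |R| + 1 + E * (2 * |R| + 10 * E) with hM
    have hsub : U ∩ X ⁻¹' K ⊆ Cpt M := by
      rintro z ⟨hz, hK'⟩
      obtain ⟨h1, h2⟩ := mem_U.1 hz
      have p1 : 0 < ‖z - 1‖ := norm_pos_iff.2 h1
      have p2 : 0 < ‖z + 1‖ := norm_pos_iff.2 h2
      have hb : ∀ i, |X z i| ≤ |R| := fun i =>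
        ((norm_le_pi_norm (X z) i).trans (hR _ hK')).trans (le_abs_self R)
      have b0 := abs_le.1 (hb 0)
      have b1 := abs_le.1 (hb 1)
      have b2 := abs_le.1 (hb 2)
      have b3 := abs_le.1 (hb 3)
      simp only [X, Matrix.cons_val_zero, Matrix.cons_val_one, Matrix.cons_val] at b0 b1 b2 b3
      have hR0 : 0 ≤ |R| := abs_nonneg R
      have hPQ : ‖P z‖ ≤ 2 * |R| + 2 * ‖Q z‖ := by
        have c1 := Complex.norm_le_abs_re_add_abs_im (P z)
        have c2 := abs_le.1 (Complex.abs_re_le_norm (Q z))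
        have c3 := abs_le.1 (Complex.abs_im_le_norm (Q z))
        have c4 : |(P z).re| ≤ |R| + ‖Q z‖ := abs_le.2 ⟨by linarith, by linarith⟩
        have c5 : |(P z).im| ≤ |R| + ‖Q z‖ := abs_le.2 ⟨by linarith, by linarith⟩
        linarith
      have hQP : ‖Q z‖ ≤ 2 * |R| + 2 * ‖P z‖ := by
        have c1 := Complex.norm_le_abs_re_add_abs_im (Q z)
        have c2 := abs_le.1 (Complex.abs_re_le_norm (P z))
        have c3 := abs_le.1 (Complex.abs_im_le_norm (P z))
        have c4 : |(Q z).re| ≤ |R| + ‖P z‖ := abs_le.2 ⟨by linarith, by linarith⟩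
        have c5 : |(Q z).im| ≤ |R| + ‖P z‖ := abs_le.2 ⟨by linarith, by linarith⟩
        linarith
      have hM1 : 1 ≤ M := by rw [hM]; nlinarith
      have hM2 : E * (2 * |R| + 10 * E) ≤ M := by rw [hM]; nlinarith
      refine ⟨?_, ?_, ?_⟩
      · have c1 := Complex.norm_le_abs_re_add_abs_im z
        have c4 : |z.re| ≤ |R| := abs_le.2 ⟨by linarith, by linarith⟩
        have c5 : |z.im| ≤ |R| := abs_le.2 ⟨by linarith, by linarith⟩
        have : 0 ≤ E * (2 * |R| + 10 * E) := by positivity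
        rw [hM]; linarith
      · rcases le_total ‖z - 1‖ 1 with h | h
        · have h3 : 1 ≤ ‖z + 1‖ := by linarith [two_le_add z]
          have h4 : z.re ≤ 2 := by
            have := Complex.abs_re_le_norm (z - 1)
            simp only [Complex.sub_re, Complex.one_re] at this
            have := abs_le.1 (this.trans h)
            linarith [this.2]
          have h5 : 1 ≤ E * Real.exp (-z.re) := by
            rw [hE, ← Real.exp_add]; exact Real.one_le_exp (by linarith)
          have h6 : Real.exp z.re ≤ E := Real.exp_le_exp.2 h4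
          have h7 : ‖z - 3‖ ≤ 5 := by
            have := norm_sub_le (z - 1) 2
            have e : z - 1 - 2 = z - 3 := by ring
            rw [e] at this
            simp only [Complex.norm_ofNat] at this
            linarith
          have h8 : 1 ≤ ‖z + 3‖ := by
            have := norm_sub_le (z + 3) (z - 1)
            have e : z + 3 - (z - 1) = 4 := by ring
            rw [e] at this
            simp only [Complex.norm_ofNat] at this
            linarith
          have h9 : ‖P z‖ ≤ 5 * E := by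
            rw [norm_P, div_le_iff₀ p2]
            have : Real.exp z.re * ‖z - 3‖ ≤ E * 5 := by gcongr
            nlinarith
          have h10 : 1 ≤ E * ‖Q z‖ * ‖z - 1‖ := by
            rw [norm_Q]
            have e : E * (Real.exp (-z.re) * ‖z + 3‖ / ‖z - 1‖) * ‖z - 1‖ =
                E * Real.exp (-z.re) * ‖z + 3‖ := by field_simp
            rw [e]; nlinarith
          refine h10.trans ?_
          gcongr
          refine le_trans ?_ hM2
          gcongr
          linarith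
        · nlinarith
      · rcases le_total ‖z + 1‖ 1 with h | h
        · have h3 : 1 ≤ ‖z - 1‖ := by linarith [two_le_add z]
          have h4 : -2 ≤ z.re := by
            have := Complex.abs_re_le_norm (z + 1)
            simp only [Complex.add_re, Complex.one_re] at this
            have := abs_le.1 (this.trans h)
            linarith [this.1]
          have h5 : 1 ≤ E * Real.exp z.re := by
            rw [hE, ← Real.exp_add]; exact Real.one_le_exp (by linarith)
          have h6 : Real.exp (-z.re) ≤ E := Real.exp_le_exp.2 (by linarith)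
          have h7 : ‖z + 3‖ ≤ 5 := by
            have := norm_add_le (z + 1) 2
            have e : z + 1 + 2 = z + 3 := by ring
            rw [e] at this
            simp only [Complex.norm_ofNat] at this
            linarith
          have h8 : 1 ≤ ‖z - 3‖ := by
            have := norm_sub_le (z + 1) (z - 3)
            have e : z + 1 - (z - 3) = 4 := by ring
            rw [e] at this
            simp only [Complex.norm_ofNat] at this
            linarith
          have h9 : ‖Q z‖ ≤ 5 * E := by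
            rw [norm_Q, div_le_iff₀ p1]
            have : Real.exp (-z.re) * ‖z + 3‖ ≤ E * 5 := by gcongr
            nlinarith
          have h10 : 1 ≤ E * ‖P z‖ * ‖z + 1‖ := by
            rw [norm_P]
            have e : E * (Real.exp z.re * ‖z - 3‖ / ‖z + 1‖) * ‖z + 1‖ =
                E * Real.exp z.re * ‖z - 3‖ := by field_simp
            rw [e]; nlinarith
          refine h10.trans ?_
          gcongr
          refine le_trans ?_ hM2
          gcongr
          linarith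
        · nlinarith
    have e : U ∩ X ⁻¹' K = Cpt M ∩ X ⁻¹' K :=
      Set.Subset.antisymm (fun z hz => ⟨hsub hz, hz.2⟩) fun z hz => ⟨Cpt_sub M hz.1, hz.2⟩
    rw [e]
    refine (Cpt_compact M).of_isClosed_subset ?_ Set.inter_subset_left
    exact (smooth_X.continuousOn.mono (Cpt_sub M)).preimage_isClosed_of_isClosed
      (Cpt_compact M).isClosed hK.isClosed

def Strip : Set ℂ := measurableEquivRealProd ⁻¹' (Set.Icc (-1 : ℝ) 1 ×ˢ Set.Ici (3 : ℝ))

theorem meas_Strip : MeasurableSet Strip :=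
  measurableEquivRealProd.measurable (measurableSet_Icc.prod measurableSet_Ici)

theorem vol_Strip : volume Strip = ⊤ := by
  unfold Strip
  rw [volume_preserving_equiv_real_prod.measure_preimage
    (measurableSet_Icc.prod measurableSet_Ici).nullMeasurableSet, Measure.volume_eq_prod,
    Measure.prod_prod, Real.volume_Icc, Real.volume_Ici, ENNReal.mul_top]
  simp

theorem strip_facts {z : ℂ} (hz : z ∈ Strip) :
    z ∈ U ∧ 1 / 4 ≤ (k z).re ^ 2 + (k z).im ^ 2 ∧ lam z ≤ 8 * Real.exp 1 ^ 2 := by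
  obtain ⟨⟨h1, h2⟩, h3⟩ : (-1 ≤ z.re ∧ z.re ≤ 1) ∧ 3 ≤ z.im := hz
  have n1 : ‖z - 1‖ ^ 2 = (z.re - 1) ^ 2 + z.im ^ 2 := by
    rw [Complex.sq_norm, Complex.normSq_apply]; simp; ring
  have n2 : ‖z + 1‖ ^ 2 = (z.re + 1) ^ 2 + z.im ^ 2 := by
    rw [Complex.sq_norm, Complex.normSq_apply]; simp; ring
  have m1 : 3 ≤ ‖z - 1‖ := by
    have := Complex.im_le_norm (z - 1)
    simp only [Complex.sub_im, Complex.one_im, sub_zero] at this
    linarith
  have m2 : 3 ≤ ‖z + 1‖ := by
    have := Complex.im_le_norm (z + 1)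
    simp only [Complex.add_im, Complex.one_im, add_zero] at this
    linarith
  have hU : z ∈ U := by
    rw [mem_U]
    constructor
    · intro h; rw [h] at m1; norm_num at m1
    · intro h; rw [h] at m2; norm_num at m2
  refine ⟨hU, ?_, ?_⟩
  · have a1 : ‖(4 : ℂ) / ((z - 1) * (z + 1))‖ ≤ 1 / 2 := by
      rw [norm_div, norm_mul, div_le_iff₀ (by positivity)]
      simp only [Complex.norm_ofNat]
      nlinarith
    have a2 := abs_le.1 ((Complex.abs_re_le_norm _).trans a1)
    have a3 : 1 / 2 ≤ (k z).re := by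
      unfold k
      rw [Complex.add_re, Complex.one_re]
      linarith [a2.1]
    nlinarith [sq_nonneg (k z).im]
  · have e1 : Real.exp z.re ≤ Real.exp 1 := Real.exp_le_exp.2 h2
    have e2 : Real.exp (-z.re) ≤ Real.exp 1 := Real.exp_le_exp.2 (by linarith)
    have r1 : ‖z - 1‖ ^ 2 ≤ 2 * ‖z + 1‖ ^ 2 := by rw [n1, n2]; nlinarith
    have r2 : ‖z + 1‖ ^ 2 ≤ 2 * ‖z - 1‖ ^ 2 := by rw [n1, n2]; nlinarith
    have g1 : ‖g z‖ ≤ 2 * Real.exp 1 := by
      rw [norm_g, div_le_iff₀ (by positivity)]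
      calc Real.exp z.re * ‖z - 1‖ ^ 2 ≤ Real.exp 1 * (2 * ‖z + 1‖ ^ 2) := by gcongr
        _ = _ := by ring
    have g2 : ‖f z‖ ≤ 2 * Real.exp 1 := by
      rw [norm_f, div_le_iff₀ (by positivity)]
      calc Real.exp (-z.re) * ‖z + 1‖ ^ 2 ≤ Real.exp 1 * (2 * ‖z - 1‖ ^ 2) := by gcongr
        _ = _ := by ring
    unfold lam
    rw [A_eq, B_eq]
    have g3 : ‖g z‖ ^ 2 ≤ (2 * Real.exp 1) ^ 2 := by gcongr
    have g4 : ‖f z‖ ^ 2 ≤ (2 * Real.exp 1) ^ 2 := by gcongr
    nlinarith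

theorem total_X : totalAbsCurvature X U = ⊤ := by
  unfold totalAbsCurvature
  rw [eq_top_iff]
  refine le_trans ?_ (lintegral_mono_set (s := Strip) fun z hz => (strip_facts hz).1)
  set c : ℝ := 2 / (8 * Real.exp 1 ^ 2) ^ 2 with hc
  have hc0 : 0 < c := by positivity
  have h1 : ∫⁻ _z in Strip, ENNReal.ofReal c = ⊤ := by
    rw [setLIntegral_const, vol_Strip, ENNReal.mul_top]
    simpa using hc0
  rw [← h1]
  refine setLIntegral_mono' meas_Strip ?_
  intro z hz
  obtain ⟨hU, hk, hl⟩ := strip_facts hz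
  have hpos : 0 < lam z := by linarith [two_le_lam hU]
  apply ENNReal.ofReal_le_ofReal
  rw [gaussK_X hU, cE_X hU, cG_X hU, cF_X hU]
  have e1 : Real.sqrt (lam z * lam z - 0 ^ 2) = lam z := by
    rw [show lam z * lam z - 0 ^ 2 = lam z ^ 2 by ring, Real.sqrt_sq hpos.le]
  have e2 : |-8 * ((k z).re ^ 2 + (k z).im ^ 2) / lam z ^ 3| * lam z =
      8 * ((k z).re ^ 2 + (k z).im ^ 2) / lam z ^ 2 := by
    rw [abs_of_nonpos]
    · field_simp
    · apply div_nonpos_of_nonpos_of_nonneg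
      · nlinarith
      · positivity
  rw [e1, e2, hc]
  gcongr
  linarith

end Pool.Agent.H786Z.St
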